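import Pool.Agent.Helper71.BM.Basic

/-!
# Transversals of pairwise intersecting long cycles: closing a packing of ears
-/

set_option autoImplicit false

namespace Pool.Agent.Helper71.BM

open Finset ErdPos

/-- chords, ears and the ear of a chord, for a packing -/
lemma clo_data {V : Type} {G : SimpleGraph V} {q : ℕ} {W : Finset V} {t : ℕ → V}
    {P : List (List V)} (hP : Pkg G q W t P) :
    ∃ (c : List (ℕ × ℕ)) (g E : ℕ × ℕ → List V), c.length = P.length ∧ (ends c).Nodup ∧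
      (∀ p, p ∈ c ∨ p.swap ∈ c → g p ∈ P ∧ Ear G q W t p.1 p.2 (E p) ∧
        (E p).length = (g p).length ∧ ∀ v, v ∈ E p ↔ v ∈ g p) ∧
      ∀ p p', (p ∈ c ∨ p.swap ∈ c) → (p' ∈ c ∨ p'.swap ∈ c) → g p = g p' →
        p = p' ∨ p = p'.swap := by
  classical
  have hex : ∀ l ∈ P, ∃ x : ℕ × ℕ, Ear G q W t x.1 x.2 l := by
    intro l hl
    obtain ⟨a, b, h⟩ := hP.2 l hl
    exact ⟨(a, b), h⟩
  choose! f hf using hex
  -- a terminal on two ears
  have hkey : ∀ l ∈ P, ∀ l' ∈ P, ∀ i, (t i ∈ l) → (t i ∈ l') → l = l' := by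
    intro l hl l' hl' i h1 h2
    exact eq_of_mem_flatten hP.1 hl hl' h1 h2
  have hm1 : ∀ l ∈ P, t (f l).1 ∈ l := fun l hl => (hf l hl).2.2.2.1.head_mem
  have hm2 : ∀ l ∈ P, t (f l).2 ∈ l := fun l hl => (hf l hl).2.2.2.1.last_mem
  have h11 : ∀ l ∈ P, ∀ l' ∈ P, (f l).1 = (f l').1 → l = l' := by
    intro l hl l' hl' h
    exact hkey l hl l' hl' (f l).1 (hm1 l hl) (h ▸ hm1 l' hl')
  have h22 : ∀ l ∈ P, ∀ l' ∈ P, (f l).2 = (f l').2 → l = l' := by
    intro l hl l' hl' h
    exact hkey l hl l' hl' (f l).2 (hm2 l hl) (h ▸ hm2 l' hl')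
  have h12 : ∀ l ∈ P, ∀ l' ∈ P, (f l).1 ≠ (f l').2 := by
    intro l hl l' hl' h
    have h1 := hkey l hl l' hl' (f l).1 (hm1 l hl) (h ▸ hm2 l' hl')
    rw [← h1] at h
    exact (hf l hl).2.2.1 h
  have hPn := hP.nodup
  let g : ℕ × ℕ → List V := fun p =>
    if h : ∃ l ∈ P, p = f l ∨ p = (f l).swap then Classical.choose h else []
  have hg : ∀ p, (p ∈ P.map f ∨ p.swap ∈ P.map f) →
      g p ∈ P ∧ (p = f (g p) ∨ p = (f (g p)).swap) := by
    intro p hp
    have h : ∃ l ∈ P, p = f l ∨ p = (f l).swap := by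
      rcases hp with hp | hp
      · obtain ⟨l, hl, h⟩ := List.mem_map.1 hp
        exact ⟨l, hl, Or.inl h.symm⟩
      · obtain ⟨l, hl, h⟩ := List.mem_map.1 hp
        exact ⟨l, hl, Or.inr (by rw [h, Prod.swap_swap])⟩
    have h2 : g p = Classical.choose h := dif_pos h
    rw [h2]
    exact Classical.choose_spec h
  refine ⟨P.map f, g, fun p => if p = f (g p) then g p else (g p).reverse, by simp, ?_, ?_, ?_⟩
  · unfold ends
    rw [List.map_map, List.map_map, List.nodup_append]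
    refine ⟨?_, ?_, ?_⟩
    · rw [List.nodup_map_iff_inj_on hPn]
      intro x hx y hy h
      exact h11 x hx y hy h
    · rw [List.nodup_map_iff_inj_on hPn]
      intro x hx y hy h
      exact h22 x hx y hy h
    · intro a ha b hb hab
      obtain ⟨l, hl, rfl⟩ := List.mem_map.1 ha
      obtain ⟨l', hl', rfl⟩ := List.mem_map.1 hb
      exact h12 l hl l' hl' hab
  · intro p hp
    obtain ⟨hgP, hgp⟩ := hg p hp
    refine ⟨hgP, ?_⟩
    by_cases hc : p = f (g p)
    · simp only [if_pos hc]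
      refine ⟨?_, trivial, fun v => trivial⟩
      have := hf (g p) hgP
      rw [← hc] at this
      exact this
    · simp only [if_neg hc]
      refine ⟨?_, by simp, fun v => by simp⟩
      have h1 : p = (f (g p)).swap := hgp.resolve_left hc
      have h2 := (hf (g p) hgP).reverse
      have e1 : p.1 = (f (g p)).2 := congrArg Prod.fst h1
      have e2 : p.2 = (f (g p)).1 := congrArg Prod.snd h1
      rw [e1, e2]
      exact h2
  · intro p p' hp hp' hpp
    obtain ⟨_, h1⟩ := hg p hp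
    obtain ⟨_, h2⟩ := hg p' hp'
    rw [hpp] at h1
    rcases h1 with h1 | h1 <;> rcases h2 with h2 | h2
    · left; rw [h1, ← h2]
    · right
      rw [h2, Prod.swap_swap]
      exact h1
    · right
      rw [← h2] at h1
      exact h1
    · left
      rw [← h2] at h1
      exact h1

/-- the ears of a family of chords with different ends are disjoint -/
lemma clo_nodup {V : Type} {G : SimpleGraph V} {q : ℕ} {W : Finset V} {t : ℕ → V}
    {P : List (List V)} (hP : Pkg G q W t P) {c : List (ℕ × ℕ)} {g E : ℕ × ℕ → List V}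
    (h1 : ∀ p, p ∈ c ∨ p.swap ∈ c → g p ∈ P ∧ Ear G q W t p.1 p.2 (E p) ∧
        (E p).length = (g p).length ∧ ∀ v, v ∈ E p ↔ v ∈ g p)
    (h2 : ∀ p p', (p ∈ c ∨ p.swap ∈ c) → (p' ∈ c ∨ p'.swap ∈ c) → g p = g p' →
        p = p' ∨ p = p'.swap)
    {c' : List (ℕ × ℕ)} (hc : (ends c').Nodup) (hs : ∀ p ∈ c', p ∈ c ∨ p.swap ∈ c) :
    (c'.map g).Nodup ∧ (c'.map E).flatten.Nodup := by
  unfold ends at hc
  rw [List.nodup_append] at hc
  have hn : c'.Nodup := hc.1.of_map
  have hinj : ∀ p ∈ c', ∀ p' ∈ c', g p = g p' → p = p' := by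
    intro p hp p' hp' h
    rcases h2 p p' (hs p hp) (hs p' hp') h with h | h
    · exact h
    · exfalso
      refine hc.2.2 p.1 (List.mem_map.2 ⟨p, hp, rfl⟩) p'.2 (List.mem_map.2 ⟨p', hp', rfl⟩) ?_
      rw [h]
      rfl
  refine ⟨(List.nodup_map_iff_inj_on hn).2 hinj, ?_⟩
  rw [List.nodup_flatten]
  constructor
  · intro l hl
    obtain ⟨p, hp, rfl⟩ := List.mem_map.1 hl
    exact (h1 p (hs p hp)).2.1.2.2.2.1.2.2.1
  · rw [List.pairwise_map]
    rw [List.Nodup] at hn
    refine hn.imp_of_mem ?_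
    intro p p' hp hp' hne v hv hv'
    obtain ⟨a1, _, _, a4⟩ := h1 p (hs p hp)
    obtain ⟨b1, _, _, b4⟩ := h1 p' (hs p' hp')
    exact hne (hinj p hp p' hp' (eq_of_mem_flatten hP.1 a1 b1 ((a4 v).1 hv) ((b4 v).1 hv')))

theorem st_CLO (h1 : ST_SC) (h2 : ST_CLG) : ST_CLO := by
  intro V _ _ G F q N W t hH P hP hne h3
  classical
  obtain ⟨c, g, E, hc1, hc2, hc3, hc4⟩ := clo_data hP
  have hcne : c ≠ [] := by
    rintro rfl
    exact hne (List.length_eq_zero_iff.1 hc1.symm)
  obtain ⟨c', k1, k2, k3, k4⟩ := h1 c hcne hc2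
  obtain ⟨hn1, hn2⟩ := clo_nodup hP hc3 hc4 k2 k3
  -- all ears are used
  have hperm : (c'.map g).Perm P := by
    have hsub : c'.map g ⊆ P := by
      intro l hl
      obtain ⟨p, hp, rfl⟩ := List.mem_map.1 hl
      exact (hc3 p (k3 p hp)).1
    refine (hn1.subperm hsub).perm_of_length_le ?_
    rw [List.length_map, k1, hc1]
  have hmem : ∀ v, v ∈ (c'.map E).flatten ↔ v ∈ P.flatten := by
    intro v
    constructor
    · intro hv
      obtain ⟨l, hl, hv⟩ := List.mem_flatten.1 hv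
      obtain ⟨p, hp, rfl⟩ := List.mem_map.1 hl
      obtain ⟨a1, _, _, a4⟩ := hc3 p (k3 p hp)
      exact List.mem_flatten.2 ⟨g p, a1, (a4 v).1 hv⟩
    · intro hv
      obtain ⟨l, hl, hv⟩ := List.mem_flatten.1 hv
      have hl' := hperm.mem_iff.2 hl
      obtain ⟨p, hp, rfl⟩ := List.mem_map.1 hl'
      obtain ⟨_, _, _, a4⟩ := hc3 p (k3 p hp)
      exact List.mem_flatten.2 ⟨E p, List.mem_map.2 ⟨p, hp, rfl⟩, (a4 v).2 hv⟩
  have hlen : 3 ≤ (c'.map E).flatten.length := by
    refine h3.trans ?_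
    exact (hP.1.subperm (fun v hv => (hmem v).2 hv)).length_le
  have hc'ne : c' ≠ [] := by
    rintro rfl
    simp at hlen
  obtain ⟨Z, z1, z2, z3⟩ := h2 V G F q N W t hH [c'] E (by simpa using hc'ne)
    (by simpa using k4) (by
      intro x hx p hp
      have : x = c' := by simpa using hx
      subst this
      exact (hc3 p (k3 p hp)).2.1) (by simpa using hn2) (by
      intro x hx
      have : x = c' := by simpa using hx
      subst this
      exact hlen)
  cases Z with
  | nil => simp at z1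
  | cons z Z =>
    obtain ⟨w1, w2, w3⟩ := z3 0 c' z (by simp) (by simp)
    refine ⟨z, w1, ?_, ?_⟩
    · intro v hv
      exact w2 v ((hmem v).2 hv)
    · intro v hv
      rcases w3 v hv with h | h
      · exact Or.inl ((hmem v).1 h)
      · exact Or.inr h

end Pool.Agent.Helper71.BM
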