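import Pool.Agent.Helper13.BM.CLO

/-!
# Transversals of pairwise intersecting long cycles: closing many ears to two cycles
-/

set_option autoImplicit false

namespace Pool.Agent.Helper71.BM

open Finset ErdPos

lemma clo2_length {V : Type} (E : ℕ × ℕ → List V) (lam : ℕ) :
    ∀ c : List (ℕ × ℕ), (∀ p ∈ c, lam ≤ (E p).length) →
      c.length * lam ≤ (c.map E).flatten.length := by
  intro c
  induction c with
  | nil => intro _; simp
  | cons p c ih =>
    intro h
    have h1 := ih (fun p' hp' => h p' (List.mem_cons_of_mem _ hp'))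
    have h2 := h p (by simp)
    rw [List.map_cons, List.flatten_cons, List.length_append, List.length_cons, add_mul, one_mul]
    omega

theorem st_CLO2 (h1 : ST_TWO) (h2 : ST_CLG) : ST_CLO2 := by
  intro V _ _ G F q N W t hH P m lam hP hm hlen hlam h3
  classical
  obtain ⟨c, g, E, hc1, hc2, hc3, hc4⟩ := clo_data hP
  obtain ⟨c1, c2, k1, k2, k3, k4, k5⟩ := h1 m c hm (by rw [hc1]; exact hlen) hc2
  have hs1 : ∀ p ∈ c1, p ∈ c ∨ p.swap ∈ c := fun p hp => k4 p (List.mem_append_left _ hp)
  have hs2 : ∀ p ∈ c2, p ∈ c ∨ p.swap ∈ c := fun p hp => k4 p (List.mem_append_right _ hp)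
  obtain ⟨_, hn⟩ := clo_nodup hP hc3 hc4 k3 k4
  have hne1 : c1 ≠ [] := by
    rintro rfl
    simp at k1
    omega
  have hne2 : c2 ≠ [] := by
    rintro rfl
    simp at k2
    omega
  have hE : ∀ p, (p ∈ c ∨ p.swap ∈ c) → lam ≤ (E p).length := by
    intro p hp
    obtain ⟨a1, _, a3, _⟩ := hc3 p hp
    rw [a3]
    exact hlam _ a1
  have hL1 : m * lam ≤ (c1.map E).flatten.length :=
    (Nat.mul_le_mul_right lam k1).trans (clo2_length E lam c1 (fun p hp => hE p (hs1 p hp)))
  have hL2 : m * lam ≤ (c2.map E).flatten.length :=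
    (Nat.mul_le_mul_right lam k2).trans (clo2_length E lam c2 (fun p hp => hE p (hs2 p hp)))
  have hn' : (c1.map E).flatten.Nodup ∧ (c2.map E).flatten.Nodup := by
    rw [List.map_append, List.flatten_append, List.nodup_append] at hn
    exact ⟨hn.1, hn.2.1⟩
  have hcase : ∀ x ∈ [c1, c2], x = c1 ∨ x = c2 := by
    intro x hx
    simpa using hx
  obtain ⟨Z, z1, z2, z3⟩ := h2 V G F q N W t hH [c1, c2] E (by
      intro x hx
      rcases hcase x hx with rfl | rfl
      · exact hne1
      · exact hne2)
    (by simpa using k5) (by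
      intro x hx p hp
      rcases hcase x hx with rfl | rfl
      · exact (hc3 p (hs1 p hp)).2.1
      · exact (hc3 p (hs2 p hp)).2.1) (by simpa using hn) (by
      intro x hx
      rcases hcase x hx with rfl | rfl
      · exact h3.trans hL1
      · exact h3.trans hL2)
  obtain ⟨z, z', rfl⟩ : ∃ z z', Z = [z, z'] := by
    cases Z with
    | nil => simp at z1
    | cons z Z =>
      cases Z with
      | nil => simp at z1
      | cons z' Z =>
        cases Z with
        | nil => exact ⟨z, z', rfl⟩
        | cons _ _ => simp at z1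
  obtain ⟨w1, w2, w3⟩ := z3 0 c1 z (by simp) (by simp)
  obtain ⟨w1', w2', w3'⟩ := z3 1 c2 z' (by simp) (by simp)
  refine ⟨z, z', w1, w1', ?_, ?_, ?_⟩
  · exact hL1.trans (hn'.1.subperm (fun v hv => w2 v hv)).length_le
  · exact hL2.trans (hn'.2.subperm (fun v hv => w2' v hv)).length_le
  · intro v hv hv'
    have h5 : (z ++ z').Nodup := by simpa using z2
    rw [List.nodup_append] at h5
    exact h5.2.2 v hv v hv' rfl

end Pool.Agent.Helper71.BM
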