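import Pool.Agent.Helper71.BM.Basic

/-!
# Transversals of pairwise intersecting long cycles: the cut at a step of a minimal row
-/

set_option autoImplicit false

namespace Pool.Agent.Helper71.BM

open Finset ErdPos

/-- the steps of a list -/
def cut_st {V : Type} (l : List V) : List (V × V) := l.zip l.tail

lemma cut_st_cons {V : Type} (a b : V) (l : List V) :
    cut_st (a :: b :: l) = (a, b) :: cut_st (b :: l) := by
  simp [cut_st]

lemma cut_mem_st {V : Type} {l : List V} {x y : V} :
    (x, y) ∈ cut_st l ↔ ∃ l1 l2 : List V, l = l1 ++ x :: y :: l2 := by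
  induction l with
  | nil => simp [cut_st]
  | cons a l ih =>
    cases l with
    | nil =>
      constructor
      · intro h; simp [cut_st] at h
      · rintro ⟨l1, l2, h⟩
        have := congrArg List.length h
        simp at this
        omega
    | cons b l =>
      rw [cut_st_cons, List.mem_cons, ih]
      constructor
      · rintro (h | ⟨l1, l2, h⟩)
        · rw [Prod.mk.injEq] at h
          exact ⟨[], l, by rw [h.1, h.2]; rfl⟩
        · exact ⟨a :: l1, l2, by rw [h]; rfl⟩
      · rintro ⟨l1, l2, h⟩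
        cases l1 with
        | nil =>
          simp at h
          left
          rw [h.1, h.2.1]
        | cons c l1 =>
          simp at h
          right
          exact ⟨l1, l2, h.2⟩

lemma cut_st_mem {V : Type} {l : List V} {x y : V} (h : (x, y) ∈ cut_st l) : x ∈ l ∧ y ∈ l := by
  obtain ⟨l1, l2, rfl⟩ := cut_mem_st.1 h
  simp

lemma cut_st_nodup {V : Type} : ∀ {l : List V}, l.Nodup →
    ((cut_st l).map (fun p => s(p.1, p.2))).Nodup := by
  intro l
  induction l with
  | nil => intro _; simp [cut_st]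
  | cons a l ih =>
    intro h
    cases l with
    | nil => simp [cut_st]
    | cons b l =>
      rw [cut_st_cons, List.map_cons, List.nodup_cons]
      rw [List.nodup_cons] at h
      refine ⟨?_, ih h.2⟩
      intro hm
      obtain ⟨⟨x, y⟩, hp, he⟩ := List.mem_map.1 hm
      have hxy := cut_st_mem hp
      simp only [Sym2.eq_iff] at he
      rcases he with ⟨h1, _⟩ | ⟨_, h1⟩
      · exact h.1 (h1 ▸ hxy.1)
      · exact h.1 (h1 ▸ hxy.2)

lemma cut_fam_nodup {V : Type} : ∀ {P : List (List V)}, P.flatten.Nodup →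
    ((P.flatMap cut_st).map (fun p => s(p.1, p.2))).Nodup := by
  intro P
  induction P with
  | nil => intro _; simp
  | cons l P ih =>
    intro h
    rw [List.flatten_cons, List.nodup_append] at h
    rw [List.flatMap_cons, List.map_append, List.nodup_append]
    refine ⟨cut_st_nodup h.1, ih h.2.1, ?_⟩
    intro a ha b hb hab
    obtain ⟨⟨x, y⟩, hp, rfl⟩ := List.mem_map.1 ha
    obtain ⟨⟨x', y'⟩, hp', rfl⟩ := List.mem_map.1 hb
    obtain ⟨l', hl', hp'⟩ := List.mem_flatMap.1 hp'
    have h1 := cut_st_mem hp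
    have h2 := cut_st_mem hp'
    simp only [Sym2.eq_iff] at hab
    rcases hab with ⟨h3, _⟩ | ⟨h3, _⟩
    · exact h.2.2 x h1.1 x' (List.mem_flatten.2 ⟨l', hl', h2.1⟩) h3
    · exact h.2.2 x h1.1 y' (List.mem_flatten.2 ⟨l', hl', h2.2⟩) h3

lemma cut_EdgeIn_symm {V : Type} {P : List (List V)} {u v : V} (h : EdgeIn P u v) :
    EdgeIn P v u := by
  obtain ⟨l, hl, l1, l2, h | h⟩ := h
  · exact ⟨l, hl, l1, l2, Or.inr h⟩
  · exact ⟨l, hl, l1, l2, Or.inl h⟩

open Classical in
lemma cut_sum {V : Type} (Q P : List (List V)) :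
    (P.map (outc Q)).sum =
      (((P.flatMap cut_st).filter (fun p => decide (¬ EdgeIn Q p.1 p.2))).map
        (fun p => s(p.1, p.2))).length := by
  rw [List.length_map]
  induction P with
  | nil => simp
  | cons l P ih =>
    rw [List.map_cons, List.sum_cons, ih, List.flatMap_cons, List.filter_append,
      List.length_append]
    rfl

lemma cut_chain_of {V : Type} {R : V → V → Prop} : ∀ {m : List V},
    (∀ m1 x y m2, m = m1 ++ x :: y :: m2 → R x y) → m.IsChain R := by
  intro m
  induction m with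
  | nil => intro _; simp
  | cons a m ih =>
    intro h
    cases m with
    | nil => simp
    | cons b m =>
      rw [List.isChain_cons_cons]
      refine ⟨h [] a b m rfl, ih ?_⟩
      intro m1 x y m2 hm
      exact h (a :: m1) x y m2 (by rw [hm]; rfl)

lemma cut_chain_to {V : Type} {R : V → V → Prop} {m m1 m2 : List V} {x y : V}
    (h : m.IsChain R) (hm : m = m1 ++ x :: y :: m2) : R x y := by
  rw [hm] at h
  have := h.right_of_append
  rw [List.isChain_cons_cons] at this
  exact this.1

/-- the graph of the steps of rows and columns, without the edge `uv` -/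
def cut_G {V : Type} (G : SimpleGraph V) (P Q : List (List V)) (u v : V) : SimpleGraph V where
  Adj x y := G.Adj x y ∧ (EdgeIn P x y ∨ EdgeIn Q x y) ∧ ¬ (x = u ∧ y = v) ∧ ¬ (x = v ∧ y = u)
  symm := by
    constructor
    rintro x y ⟨h1, h2, h3, h4⟩
    refine ⟨h1.symm, ?_, fun h => h4 ⟨h.2, h.1⟩, fun h => h3 ⟨h.2, h.1⟩⟩
    rcases h2 with h2 | h2
    · exact Or.inl (cut_EdgeIn_symm h2)
    · exact Or.inr (cut_EdgeIn_symm h2)
  loopless := by
    constructor
    rintro x ⟨h1, _⟩
    exact G.loopless.irrefl _ h1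

/-- there is no full linkage in the smaller graph -/
lemma cut_nosep {V : Type} [Fintype V] [DecidableEq V] (h1 : ST_MLP) (G : SimpleGraph V)
    (K A B : Finset V) (Q P : List (List V)) (hM : MinR G K A B Q P)
    (l : List V) (hl : l ∈ P) (l1 : List V) (u v : V) (l2 : List V) (hl' : l = l1 ++ u :: v :: l2)
    (hne : ¬ EdgeIn Q u v) : ¬ NoSep (cut_G G P Q u v) K A B P.length := by
  classical
  intro hN
  obtain ⟨P1, hP1, hlen⟩ := h1 V (cut_G G P Q u v) K A B P.length hN
  have hS1 : Sys G K A B P1 := by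
    refine ⟨hP1.1, fun m hm => ?_⟩
    obtain ⟨g1, a, ha, b, hb, ⟨p1, p2, p3, p4⟩, g2, g3⟩ := hP1.2 m hm
    exact ⟨g1, a, ha, b, hb, ⟨p1, p2, p3, p4.imp (fun _ _ h => h.1)⟩, g2, g3⟩
  have hle := hM.2 P1 hS1 hlen
  rw [cut_sum, cut_sum] at hle
  set f : V × V → Sym2 V := fun p => s(p.1, p.2) with hf
  set L := (((P.flatMap cut_st).filter (fun p => decide (¬ EdgeIn Q p.1 p.2))).map f) with hL
  set L1 := (((P1.flatMap cut_st).filter (fun p => decide (¬ EdgeIn Q p.1 p.2))).map f) with hL1
  have hnd : L1.Nodup := by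
    have hsub : L1.Sublist ((P1.flatMap cut_st).map f) :=
      List.Sublist.map f List.filter_sublist
    exact hsub.nodup (cut_fam_nodup hP1.1)
  have huv : s(u, v) ∈ L := by
    rw [hL, List.mem_map]
    refine ⟨(u, v), ?_, rfl⟩
    rw [List.mem_filter]
    refine ⟨List.mem_flatMap.2 ⟨l, hl, cut_mem_st.2 ⟨l1, l2, hl'⟩⟩, ?_⟩
    simpa using hne
  have hsub : L1 ⊆ L.erase s(u, v) := by
    intro e he
    obtain ⟨⟨x, y⟩, hp, rfl⟩ := List.mem_map.1 he
    obtain ⟨hp1, hp2⟩ := List.mem_filter.1 hp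
    have hp3 : ¬ EdgeIn Q x y := by simpa using hp2
    obtain ⟨m, hm, hp4⟩ := List.mem_flatMap.1 hp1
    obtain ⟨m1, m2, hm'⟩ := cut_mem_st.1 hp4
    obtain ⟨_, a, _, b, _, ⟨_, _, _, p4⟩, _, _⟩ := hP1.2 m hm
    obtain ⟨_, q2, q3, q4⟩ := cut_chain_to p4 hm'
    have hne2 : f (x, y) ≠ s(u, v) := by
      intro h
      simp only [hf, Sym2.eq_iff] at h
      rcases h with h | h
      · exact q3 h
      · exact q4 h
    rw [List.mem_erase_of_ne hne2]
    rcases q2 with q2 | q2
    · obtain ⟨n, hn, n1, n2, hn' | hn'⟩ := q2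
      · rw [hL, List.mem_map]
        refine ⟨(x, y), ?_, rfl⟩
        rw [List.mem_filter]
        refine ⟨List.mem_flatMap.2 ⟨n, hn, cut_mem_st.2 ⟨n1, n2, hn'⟩⟩, ?_⟩
        simpa using hp3
      · rw [hL, List.mem_map]
        refine ⟨(y, x), ?_, Sym2.eq_swap⟩
        rw [List.mem_filter]
        refine ⟨List.mem_flatMap.2 ⟨n, hn, cut_mem_st.2 ⟨n1, n2, hn'⟩⟩, ?_⟩
        have : ¬ EdgeIn Q y x := fun h => hp3 (cut_EdgeIn_symm h)
        simpa using this
    · exact absurd q2 hp3
  have h3 : L1.length ≤ (L.erase s(u, v)).length := (hnd.subperm hsub).length_le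
  rw [List.length_erase_of_mem huv] at h3
  have h4 : 0 < L.length := List.length_pos_of_mem huv
  omega

theorem st_CUT (h1 : ST_MLP) : ST_CUT := by
  intro V _ _ G K A B Q P hM hQ l hl l1 u v l2 hl' hne
  classical
  have hns := cut_nosep h1 G K A B Q P hM l hl l1 u v l2 hl' hne
  set G1 := cut_G G P Q u v with hG1
  have hPn : P.Nodup := hM.1.nodup
  have hflat := hM.1.1
  unfold NoSep at hns
  push Not at hns
  obtain ⟨S, hScard, hS⟩ := hns
  -- the other rows are paths of `G1`
  have hrow : ∀ l' ∈ P, l' ≠ l → l'.IsChain G1.Adj := by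
    intro l' h2 h3
    obtain ⟨_, a, _, b, _, ⟨_, _, _, p4⟩, _, _⟩ := hM.1.2 l' h2
    refine cut_chain_of ?_
    intro m1 x y m2 hm
    have hx : x ∈ l' := by rw [hm]; simp
    have hy : y ∈ l' := by rw [hm]; simp
    refine ⟨cut_chain_to p4 hm, Or.inl ⟨l', h2, m1, m2, Or.inl hm⟩, ?_, ?_⟩
    · rintro ⟨rfl, rfl⟩
      exact h3 (eq_of_mem_flatten hflat h2 hl hx (by rw [hl']; simp))
    · rintro ⟨rfl, rfl⟩
      exact h3 (eq_of_mem_flatten hflat h2 hl hx (by rw [hl']; simp))
  have hmeet : ∀ l' ∈ P.erase l, ∃ x ∈ l', x ∈ S := by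
    intro l' h2
    rw [hPn.mem_erase_iff] at h2
    obtain ⟨g0, a, ha, b, hb, ⟨p1, p2, p3, p4⟩, _, _⟩ := hM.1.2 l' h2.2
    obtain ⟨w, hw, hw2⟩ := hS a ha b hb l' ⟨p1, p2, p3, hrow l' h2.2 h2.1⟩
    exact ⟨w, hw, hw2 (g0 w hw)⟩
  have : Nonempty V := ⟨u⟩
  choose! f hf1 hf2 using hmeet
  have hfinj : Set.InjOn f ((P.erase l).toFinset : Set (List V)) := by
    intro x hx y hy hxy
    have hx' : x ∈ P.erase l := by simpa using hx
    have hy' : y ∈ P.erase l := by simpa using hy
    exact eq_of_mem_flatten hflat (List.mem_of_mem_erase hx') (List.mem_of_mem_erase hy')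
      (hf1 x hx') (hxy ▸ hf1 y hy')
  have hcardE : (P.erase l).toFinset.card = P.length - 1 := by
    rw [List.toFinset_card_of_nodup (hPn.erase l), List.length_erase_of_mem hl]
  have hpos : 0 < P.length := List.length_pos_of_mem hl
  have himg : (P.erase l).toFinset.image f = S := by
    apply Finset.eq_of_subset_of_card_le
    · intro x hx
      obtain ⟨y, hy, rfl⟩ := Finset.mem_image.1 hx
      exact hf2 y (by simpa using hy)
    · rw [Finset.card_image_of_injOn hfinj, hcardE]
      omega
  have hSc : S.card + 1 = P.length := by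
    rw [← himg, Finset.card_image_of_injOn hfinj, hcardE]
    omega
  -- the only vertex of `S` on another row
  have honly : ∀ l' ∈ P, ∀ x ∈ l', x ∈ S → l' ≠ l ∧ x = f l' := by
    intro l' h2 x hx hxS
    rw [← himg] at hxS
    obtain ⟨l'', h3, h4⟩ := Finset.mem_image.1 hxS
    have h3' : l'' ∈ P.erase l := by simpa using h3
    have h5 := hf1 l'' h3'
    rw [h4] at h5
    have h6 : l' = l'' := eq_of_mem_flatten hflat h2 (List.mem_of_mem_erase h3') hx h5
    refine ⟨?_, by rw [h6, h4]⟩
    rw [hPn.mem_erase_iff] at h3'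
    rw [h6]
    exact h3'.1
  have hlS : ∀ x ∈ l, x ∉ S := fun x hx hxS => (honly l hl x hx hxS).1 rfl
  -- the left part
  let Rch : V → Prop := fun x => ∃ a ∈ A, ∃ m, PL G1 a x m ∧ ∀ w ∈ m, w ∈ K ∧ w ∉ S
  let L : Finset V := univ.filter Rch
  have hLR : ∀ x, x ∈ L ↔ Rch x := by
    intro x
    simp [L]
  have hstep : ∀ x y, Rch x → G1.Adj x y → y ∈ K → y ∉ S → Rch y := by
    rintro x y ⟨a, ha, m, hm, hmK⟩ hxy hyK hyS
    by_cases hym : y ∈ m
    · obtain ⟨m1, m2, rfl⟩ := List.append_of_mem hym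
      refine ⟨a, ha, m1 ++ [y], hm.left, ?_⟩
      intro w hw
      apply hmK
      simp at hw ⊢
      tauto
    · refine ⟨a, ha, m ++ [y], hm.append (PL.single y) hxy ?_, ?_⟩
      · intro w hw hw'
        simp at hw'
        exact hym (hw' ▸ hw)
      · intro w hw
        simp at hw
        rcases hw with hw | rfl
        · exact hmK w hw
        · exact ⟨hyK, hyS⟩
  have hall : ∀ m : List V, m.IsChain G1.Adj → (∀ w ∈ m, w ∈ K ∧ w ∉ S) →
      (∀ w ∈ m, Rch w) ∨ ∀ w ∈ m, ¬ Rch w := by
    intro m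
    induction m with
    | nil => intro _ _; left; simp
    | cons a m ih =>
      intro hc hK
      cases m with
      | nil =>
        by_cases ha : Rch a
        · left; simpa using ha
        · right; simpa using ha
      | cons b m =>
        rw [List.isChain_cons_cons] at hc
        have hKa := hK a (by simp)
        have hKb := hK b (by simp)
        rcases ih hc.2 (fun w hw => hK w (List.mem_cons_of_mem _ hw)) with h | h
        · left
          intro w hw
          rcases List.mem_cons.1 hw with rfl | hw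
          · exact hstep b w (h b (by simp)) hc.1.symm hKa.1 hKa.2
          · exact h w hw
        · right
          intro w hw
          rcases List.mem_cons.1 hw with rfl | hw
          · intro hw2
            exact h b (by simp) (hstep w b hw2 hc.1 hKb.1 hKb.2)
          · exact h w hw
  have hB : ∀ x, Rch x → x ∉ B := by
    rintro x ⟨a, ha, m, hm, hmK⟩ hxB
    obtain ⟨w, hw, hw2⟩ := hS a ha x hxB m hm
    exact (hmK w hw).2 (hw2 (hmK w hw).1)
  have hRS : ∀ x, Rch x → x ∉ S := by
    rintro x ⟨a, ha, m, hm, hmK⟩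
    exact (hmK x hm.last_mem).2
  have hRA : ∀ x ∈ A, x ∈ K → x ∉ S → Rch x := by
    intro x hx hxK hxS
    exact ⟨x, hx, [x], PL.single x, by simpa using ⟨hxK, hxS⟩⟩
  -- the row `l`
  obtain ⟨lK, la, hla, lb, hlb, ⟨p1, p2, p3, p4⟩, _, _⟩ := hM.1.2 l hl
  have hnd : (l1 ++ u :: v :: l2).Nodup := hl' ▸ p3
  have hleft : (l1 ++ [u]).IsChain G1.Adj := by
    refine cut_chain_of ?_
    intro m1 x y m2 hm
    have hm' : l = m1 ++ x :: y :: (m2 ++ v :: l2) := by
      have : l = (l1 ++ [u]) ++ v :: l2 := by rw [hl']; simp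
      rw [this, hm]; simp
    have hvn : ∀ w ∈ l1 ++ [u], w ≠ v := by
      rintro w hw rfl
      have h5 : l1 ++ u :: w :: l2 = (l1 ++ [u]) ++ w :: l2 := by simp
      rw [h5, List.nodup_append] at hnd
      exact hnd.2.2 w hw w (by simp) rfl
    refine ⟨cut_chain_to p4 hm', Or.inl ⟨l, hl, m1, _, Or.inl hm'⟩, ?_, ?_⟩
    · rintro ⟨_, h5⟩
      exact hvn y (by rw [hm]; simp) h5
    · rintro ⟨h5, _⟩
      exact hvn x (by rw [hm]; simp) h5
  have hright : (v :: l2).IsChain G1.Adj := by
    refine cut_chain_of ?_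
    intro m1 x y m2 hm
    have hm' : l = (l1 ++ u :: m1) ++ x :: y :: m2 := by
      rw [hl', hm]; simp
    have hun : ∀ w ∈ v :: l2, w ≠ u := by
      rintro w hw rfl
      rw [List.nodup_append, List.nodup_cons] at hnd
      exact hnd.2.1.1 hw
    refine ⟨cut_chain_to p4 hm', Or.inl ⟨l, hl, _, _, Or.inl hm'⟩, ?_, ?_⟩
    · rintro ⟨h5, _⟩
      exact hun x (by rw [hm]; simp) h5
    · rintro ⟨_, h5⟩
      exact hun y (by rw [hm]; simp) h5
  have hleftL : ∀ w ∈ l1 ++ [u], Rch w := by
    have hsub : ∀ w ∈ l1 ++ [u], w ∈ l := by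
      intro w hw
      rw [hl']
      simp at hw ⊢
      tauto
    rcases hall (l1 ++ [u]) hleft (fun w hw => ⟨lK w (hsub w hw), hlS w (hsub w hw)⟩) with h | h
    · exact h
    · exfalso
      have h5 : la ∈ l1 ++ [u] := by
        rw [hl'] at p1
        cases l1 with
        | nil => simp at p1; simp [p1]
        | cons c l1 => simp at p1; simp [p1]
      exact h la h5 (hRA la hla (lK la (hsub la h5)) (hlS la (hsub la h5)))
  have hrightL : ∀ w ∈ v :: l2, ¬ Rch w := by
    have hsub : ∀ w ∈ v :: l2, w ∈ l := by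
      intro w hw
      rw [hl']
      simp at hw ⊢
      tauto
    rcases hall (v :: l2) hright (fun w hw => ⟨lK w (hsub w hw), hlS w (hsub w hw)⟩) with h | h
    · exfalso
      have h5 : lb ∈ v :: l2 := by
        rw [hl', List.getLast?_append] at p2
        simp only [List.getLast?_cons_cons, Option.or_eq_some_iff] at p2
        rcases p2 with p2 | p2
        · exact List.mem_of_getLast? p2
        · simp at p2
      exact hB lb (h lb h5) hlb
    · exact h
  refine ⟨S, L, hSc, ?_, hlS, ?_, ?_, ?_, ?_, ?_, ?_⟩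
  · rw [Finset.disjoint_left]
    intro x hx hxL
    exact hRS x ((hLR x).1 hxL) hx
  · intro x hx
    exact (hLR x).2 (hleftL x (by simp [hx]))
  · exact (hLR u).2 (hleftL u (by simp))
  · intro h
    exact hrightL v (by simp) ((hLR v).1 h)
  · intro x hx h
    exact hrightL x (by simp [hx]) ((hLR x).1 h)
  · intro l' h2 h3
    have h4 : l' ∈ P.erase l := by rw [hPn.mem_erase_iff]; exact ⟨h3, h2⟩
    obtain ⟨a, b, hab⟩ := List.append_of_mem (hf1 l' h4)
    obtain ⟨mK, ma, hma, mb, hmb, ⟨q1, q2, q3, q4⟩, _, _⟩ := hM.1.2 l' h2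
    have hc := hrow l' h2 h3
    have hnd' : (a ++ f l' :: b).Nodup := hab ▸ q3
    rw [List.nodup_append, List.nodup_cons] at hnd'
    have ha1 : ∀ y ∈ a, y ∈ K ∧ y ∉ S := by
      intro y hy
      have hy' : y ∈ l' := by rw [hab]; simp [hy]
      refine ⟨mK y hy', fun hyS => ?_⟩
      have := (honly l' h2 y hy' hyS).2
      exact hnd'.2.2 y hy (f l') (by simp) this
    have hb1 : ∀ y ∈ b, y ∈ K ∧ y ∉ S := by
      intro y hy
      have hy' : y ∈ l' := by rw [hab]; simp [hy]
      refine ⟨mK y hy', fun hyS => ?_⟩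
      have := (honly l' h2 y hy' hyS).2
      exact hnd'.2.1.1 (this ▸ hy)
    rw [hab] at hc
    refine ⟨a, f l', b, hab, hf2 l' h4, ?_, ?_⟩
    · intro y hy
      rw [hLR]
      rcases hall a hc.left_of_append ha1 with h | h
      · exact h y hy
      · exfalso
        have h5 : ma ∈ a := by
          rw [hab] at q1
          cases a with
          | nil => simp at hy
          | cons c a => simp at q1; simp [q1]
        exact h ma h5 (hRA ma hma (ha1 ma h5).1 (ha1 ma h5).2)
    · intro y hy
      refine ⟨?_, (hb1 y hy).2⟩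
      rw [hLR]
      have hcb : b.IsChain G1.Adj := (hc.right_of_append).tail
      rcases hall b hcb hb1 with h | h
      · exfalso
        have h5 : mb ∈ b := by
          rw [hab, List.getLast?_append] at q2
          cases b with
          | nil => simp at hy
          | cons c b =>
            simp only [List.getLast?_cons_cons, Option.or_eq_some_iff] at q2
            rcases q2 with q2 | q2
            · exact List.mem_of_getLast? q2
            · simp at q2
        exact hB mb (h mb h5) hmb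
      · exact h y hy
  · intro c hc hcS
    obtain ⟨_, c2, c3⟩ := hQ.2 c hc
    have hcc : c.IsChain G1.Adj := by
      refine cut_chain_of ?_
      intro m1 x y m2 hm
      refine ⟨cut_chain_to c2 hm, Or.inr ⟨c, hc, m1, m2, Or.inl hm⟩, ?_, ?_⟩
      · rintro ⟨rfl, rfl⟩
        exact hne ⟨c, hc, m1, m2, Or.inl hm⟩
      · rintro ⟨rfl, rfl⟩
        exact hne ⟨c, hc, m1, m2, Or.inr hm⟩
    rcases hall c hcc (fun w hw => ⟨c3 w hw, hcS w hw⟩) with h | h
    · left
      intro x hx
      exact (hLR x).2 (h x hx)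
    · right
      intro x hx hxL
      exact h x hx ((hLR x).1 hxL)

end Pool.Agent.Helper71.BM
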